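import Mathlib

/-!
Maximal multiplicity in almost Golomb sequences.
-/

namespace Pool.Agent.Results.MP_c02c06_co.MaxMultiplicity

/-- `a(n) + a(n-1) + ⋯ + a(n-r+1)`; indices `≤ 0` are read as index `0`, where `a` vanishes. -/
def S (r : ℕ) (a : ℕ → ℕ) (n : ℕ) : ℕ := ∑ j ∈ Finset.range r, a (n - j)

/-- Nondecreasing sequences `a(1), a(2), …` of positive integers, extended by `a(0) = 0`, with
`a(a(n) + ⋯ + a(n-r+1)) = n` for all `n ≥ 1`. -/
structure Sol (r : ℕ) (a : ℕ → ℕ) : Prop where
  zero : a 0 = 0
  pos : ∀ n, 1 ≤ n → 1 ≤ a n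
  mono : Monotone a
  eq : ∀ n, 1 ≤ n → a (S r a n) = n

/-- The almost Golomb sequence of order `r`: the solution in which each term is as small as
possible, i.e. the lexicographically least solution. -/
def IsAlmostGolomb (r : ℕ) (a : ℕ → ℕ) : Prop :=
  Sol r a ∧ ∀ b, Sol r b → b ≠ a → ∃ i, (∀ j < i, b j = a j) ∧ a i < b i

/-- The multiplicity `N(n)` of the value `n`. -/
noncomputable def N (a : ℕ → ℕ) (n : ℕ) : ℕ := {i | 1 ≤ i ∧ a i = n}.ncard

/-! ### The greedy construction -/

/-- Approximations: `G r k` is correct at the indices `≤ k + 3`. -/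
def G (r : ℕ) : ℕ → (ℕ → ℕ)
  | 0 => fun i => if i = 0 then 0 else if i = 1 then 1 else 2
  | k + 1 => Function.update (G r k) (k + 4)
      (if S r (G r k) (G r k (k + 3) + 1) = k + 4 then G r k (k + 3) + 1 else G r k (k + 3))

/-- The greedy sequence. -/
def g (r : ℕ) (i : ℕ) : ℕ := G r i i

theorem G_stable (r k d i : ℕ) (hi : i ≤ k + 3) : G r (k + d) i = G r k i := by
  induction d with
  | zero => rfl
  | succ d ih =>
    rw [← ih, ← Nat.add_assoc]
    simp only [G]
    rw [Function.update_of_ne (by omega)]

theorem g_eq (r k i : ℕ) (hi : i ≤ k + 3) : g r i = G r k i := by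
  rw [g]
  rcases le_total i k with h | h
  · obtain ⟨d, rfl⟩ := Nat.exists_eq_add_of_le h
    exact (G_stable r i d i (by omega)).symm
  · obtain ⟨d, rfl⟩ := Nat.exists_eq_add_of_le h
    exact G_stable r k d _ hi

theorem g0 (r : ℕ) : g r 0 = 0 := by rw [g_eq r 0 0 (by omega)]; rfl
theorem g1 (r : ℕ) : g r 1 = 1 := by rw [g_eq r 0 1 (by omega)]; rfl
theorem g2 (r : ℕ) : g r 2 = 2 := by rw [g_eq r 0 2 (by omega)]; rfl
theorem g3 (r : ℕ) : g r 3 = 2 := by rw [g_eq r 0 3 (by omega)]; rfl

theorem S_congr {r : ℕ} {a b : ℕ → ℕ} {n : ℕ} (h : ∀ i ≤ n, a i = b i) : S r a n = S r b n := by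
  apply Finset.sum_congr rfl
  intro j _
  exact h _ (Nat.sub_le n j)

theorem g_step (r k : ℕ) (hle : g r (k + 3) + 1 ≤ k + 3) : g r (k + 4) =
    if S r (g r) (g r (k + 3) + 1) = k + 4 then g r (k + 3) + 1 else g r (k + 3) := by
  rw [g_eq r (k + 1) (k + 4) (by omega)]
  simp only [G]
  rw [Function.update_self, ← g_eq r k (k + 3) le_rfl]
  have : S r (G r k) (g r (k + 3) + 1) = S r (g r) (g r (k + 3) + 1) :=
    S_congr fun i hi => (g_eq r k i (by omega)).symm
  rw [this]

theorem g_size (r k : ℕ) : g r (k + 3) + 1 ≤ k + 3 := by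
  induction k with
  | zero => rw [g3]
  | succ k ih =>
    rw [show k + 1 + 3 = k + 4 by omega, g_step r k ih]
    split_ifs <;> omega

/-- The recursion for the greedy sequence. -/
theorem g_rec {r k : ℕ} (hk : 3 ≤ k) : g r (k + 1) =
    if S r (g r) (g r k + 1) = k + 1 then g r k + 1 else g r k := by
  obtain ⟨k, rfl⟩ := Nat.exists_eq_add_of_le' hk
  exact g_step r k (g_size r k)

theorem g_lt {r k : ℕ} (hk : 3 ≤ k) : g r k + 1 ≤ k := by
  obtain ⟨k, rfl⟩ := Nat.exists_eq_add_of_le' hk
  exact g_size r k

theorem g_succ (r k : ℕ) : g r k ≤ g r (k + 1) ∧ g r (k + 1) ≤ g r k + 1 := by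
  rcases Nat.lt_or_ge k 3 with h | h
  · interval_cases k
    · rw [g0, g1]; omega
    · rw [g1, g2]; omega
    · rw [g2, g3]; omega
  · rw [g_rec h]; split_ifs <;> omega

theorem g_mono (r : ℕ) : Monotone (g r) := monotone_nat_of_le_succ fun k => (g_succ r k).1

theorem g_incr (r x d : ℕ) : g r (x + d) ≤ g r x + d := by
  induction d with
  | zero => simp
  | succ d ih =>
    have := (g_succ r (x + d)).2
    rw [← Nat.add_assoc]; omega

theorem g_le (r k : ℕ) : g r k ≤ k := by
  have := g_incr r 0 k
  rw [g0] at this; simpa using this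

theorem g_pos {r k : ℕ} (hk : 1 ≤ k) : 1 ≤ g r k := by
  have := g_mono r hk
  rwa [g1] at this

theorem g_ge2 {r k : ℕ} (hk : 2 ≤ k) : 2 ≤ g r k := by
  have := g_mono r hk
  rwa [g2] at this

theorem S_succ {r : ℕ} (hr : 1 ≤ r) (a : ℕ → ℕ) (n : ℕ) :
    S r a (n + 1) + a (n + 1 - r) = S r a n + a (n + 1) := by
  obtain ⟨r, rfl⟩ := Nat.exists_eq_add_of_le' hr
  rw [S, S, Finset.sum_range_succ', Finset.sum_range_succ]
  have h1 : ∀ j, n + 1 - (j + 1) = n - j := fun j => by omega
  simp only [h1, Nat.sub_zero]
  omega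

theorem S_zero {r : ℕ} {a : ℕ → ℕ} (h : a 0 = 0) : S r a 0 = 0 := by
  apply Finset.sum_eq_zero
  intro j _
  simp [h]

section Main

variable {r : ℕ}

theorem s1 (hr : 5 ≤ r) : S r (g r) 1 = 1 := by
  have := S_succ (by omega : 1 ≤ r) (g r) 0
  rw [S_zero (g0 r), show 0 + 1 - r = 0 by omega, g0, g1] at this
  omega

theorem s2 (hr : 5 ≤ r) : S r (g r) 2 = 3 := by
  have := S_succ (by omega : 1 ≤ r) (g r) 1
  rw [s1 hr, show 1 + 1 - r = 0 by omega, g0, g2] at this
  omega

theorem s3 (hr : 5 ≤ r) : S r (g r) 3 = 5 := by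
  have := S_succ (by omega : 1 ≤ r) (g r) 2
  rw [s2 hr, show 2 + 1 - r = 0 by omega, g0, g3] at this
  omega

/-- Positions: `s(g k) ≤ k < s(g k + 1)` for `k ≥ 3`. -/
theorem pos_bounds (hr : 5 ≤ r) : ∀ k, 3 ≤ k →
    S r (g r) (g r k) ≤ k ∧ k < S r (g r) (g r k + 1) := by
  intro k
  induction k using Nat.strong_induction_on with
  | _ k ih =>
    intro hk
    rcases Nat.lt_or_ge k 4 with h4 | h4
    · have : k = 3 := by omega
      subst this
      rw [g3, s2 hr, s3 hr]; omega
    · obtain ⟨k, rfl⟩ := Nat.exists_eq_add_of_le' (by omega : 1 ≤ k)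
      have hk3 : 3 ≤ k := by omega
      obtain ⟨h1, h2⟩ := ih k (by omega) hk3
      rw [g_rec hk3]
      split_ifs with h
      · refine ⟨h.le, ?_⟩
        set n := g r k with hn
        have hs := S_succ (by omega : 1 ≤ r) (g r) (n + 1)
        -- need `g (n+2) > g (n+2-r)`
        have key : g r (n + 1 + 1 - r) < g r (n + 1 + 1) := by
          by_contra hcon
          have heq : g r (n + 1 + 1 - r) = g r (n + 1 + 1) :=
            le_antisymm (g_mono r (by omega)) (not_lt.1 hcon)
          rcases Nat.lt_or_ge r (n + 2) with h5 | h5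
          · obtain ⟨x, hx⟩ : ∃ x, n + 1 + 1 = x + r := ⟨n + 2 - r, by omega⟩
            have hx1 : 1 ≤ x := by omega
            rw [hx, Nat.add_sub_cancel] at heq
            have hxk : x + r ≤ k := by
              rcases Nat.lt_or_ge k 4 with h6 | h6
              · have : k = 3 := by omega
                rw [hn, this, g3] at h5
                omega
              · -- `g k ≤ k - 2`
                have h7 : g r k ≤ k - 2 := by
                  obtain ⟨d, rfl⟩ := Nat.exists_eq_add_of_le h6
                  have h8 := g_incr r 4 d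
                  have h9 : g r 4 = 2 := by
                    rw [g_rec (by omega), g3, s3 hr, if_neg (by omega)]
                  omega
                omega
            obtain ⟨h8, h9⟩ := ih (x + r) (by omega) (by omega)
            rw [← heq] at h9
            rcases Nat.lt_or_ge x 3 with h10 | h10
            · interval_cases x
              · rw [g1] at heq
                have := g_ge2 (r := r) (k := 1 + r) (by omega)
                omega
              · rw [g2, s3 hr] at h9
                omega
            · obtain ⟨h11, h12⟩ := ih x (by omega) h10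
              have h13 := S_succ (by omega : 1 ≤ r) (g r) (g r x)
              have h14 : g r (g r x + 1) ≤ g r (g r x + 1 - r) + r := by
                rcases Nat.lt_or_ge (g r x + 1) r with h15 | h15
                · have := g_le r (g r x + 1)
                  omega
                · have := g_incr r (g r x + 1 - r) r
                  rwa [Nat.sub_add_cancel h15] at this
              omega
          · rw [show n + 1 + 1 - r = 0 by omega, g0] at heq
            have := g_pos (r := r) (k := n + 1 + 1) (by omega)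
            omega
        omega
      · omega

theorem g_strict (hr : 5 ≤ r) {m : ℕ} (hm : 1 ≤ m) : g r (m - r) < g r m := by
  by_contra hcon
  have heq : g r (m - r) = g r m := le_antisymm (g_mono r (by omega)) (not_lt.1 hcon)
  rcases Nat.lt_or_ge r m with h5 | h5
  · obtain ⟨x, hx⟩ : ∃ x, m = x + r := ⟨m - r, by omega⟩
    have hx1 : 1 ≤ x := by omega
    rw [hx, Nat.add_sub_cancel] at heq
    obtain ⟨h8, h9⟩ := pos_bounds hr (x + r) (by omega)
    rw [← heq] at h9
    rcases Nat.lt_or_ge x 3 with h10 | h10
    · interval_cases x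
      · rw [g1] at heq
        have := g_ge2 (r := r) (k := 1 + r) (by omega)
        omega
      · rw [g2, s3 hr] at h9
        omega
    · obtain ⟨h11, h12⟩ := pos_bounds hr x h10
      have h13 := S_succ (by omega : 1 ≤ r) (g r) (g r x)
      have h14 : g r (g r x + 1) ≤ g r (g r x + 1 - r) + r := by
        rcases Nat.lt_or_ge (g r x + 1) r with h15 | h15
        · have := g_le r (g r x + 1)
          omega
        · have := g_incr r (g r x + 1 - r) r
          rwa [Nat.sub_add_cancel h15] at this
      omega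
  · rw [show m - r = 0 by omega, g0] at heq
    have := g_pos (r := r) hm
    omega

theorem s_strict (hr : 5 ≤ r) : StrictMono (S r (g r)) := by
  apply strictMono_nat_of_lt_succ
  intro n
  have h1 := S_succ (by omega : 1 ≤ r) (g r) n
  have h2 := g_strict hr (m := n + 1) (by omega)
  omega

theorem g_sol (hr : 5 ≤ r) : Sol r (g r) where
  zero := g0 r
  pos := fun n hn => g_pos hn
  mono := g_mono r
  eq := by
    intro n hn
    rcases Nat.lt_or_ge n 2 with h | h
    · have : n = 1 := by omega
      rw [this, s1 hr, g1]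
    · have h3 : 3 ≤ S r (g r) n := by
        have := (s_strict hr).monotone h
        rwa [s2 hr] at this
      obtain ⟨h4, h5⟩ := pos_bounds hr _ h3
      have h6 := (s_strict hr).le_iff_le.1 h4
      have h7 := (s_strict hr).lt_iff_lt.1 h5
      omega

/-- Any other solution is lexicographically larger. -/
theorem g_least (hr : 5 ≤ r) (b : ℕ → ℕ) (hb : Sol r b) (hne : b ≠ g r) :
    ∃ i, (∀ j < i, b j = g r j) ∧ g r i < b i := by
  have hex : ∃ i, b i ≠ g r i := Function.ne_iff.1 hne
  classical
  obtain ⟨i, hi, hlt⟩ : ∃ i, b i ≠ g r i ∧ ∀ j < i, b j = g r j :=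
    ⟨Nat.find hex, Nat.find_spec hex, fun j hj => not_not.1 (Nat.find_min hex hj)⟩
  refine ⟨i, hlt, ?_⟩
  by_contra hcon
  have hcon' : b i < g r i := lt_of_le_of_ne (not_lt.1 hcon) hi
  rcases Nat.lt_or_ge i 3 with h3 | h3
  · have : i = 0 ∨ i = 1 ∨ i = 2 := by omega
    rcases this with h | h | h
    · rw [h, g0] at hcon'
      omega
    · rw [h, g1] at hcon'
      have := hb.pos 1 le_rfl
      omega
    · rw [h, g2] at hcon'
      have h1 : b 1 = 1 := by rw [hlt 1 (by omega), g1]
      have h2 : b 2 = 1 := by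
        have := hb.pos 2 (by omega)
        omega
      have h4 : S r b 1 + b (1 - r) = S r b 0 + b 1 := S_succ (by omega : 1 ≤ r) b 0
      rw [S_zero hb.zero, show 1 - r = 0 by omega, hb.zero, h1] at h4
      have h5 : S r b 2 + b (2 - r) = S r b 1 + b 2 := S_succ (by omega : 1 ≤ r) b 1
      rw [show 2 - r = 0 by omega, hb.zero, h2] at h5
      have h6 : S r b 2 = 2 := by omega
      have h7 := hb.eq 2 (by omega)
      rw [h6, h2] at h7
      omega
  · obtain ⟨h4, _⟩ := pos_bounds hr i h3
    have h5 := g_lt (r := r) h3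
    have h6 : S r b (g r i) = S r (g r) (g r i) :=
      S_congr fun j hj => hlt j (by omega)
    have h7 := hb.eq (g r i) (g_pos (by omega))
    rw [h6] at h7
    have h8 := hb.mono h4
    rw [h7] at h8
    omega

theorem g_almost (hr : 5 ≤ r) : IsAlmostGolomb r (g r) :=
  ⟨g_sol hr, g_least hr⟩

theorem almost_unique (hr : 5 ≤ r) (b : ℕ → ℕ) (hb : IsAlmostGolomb r b) : b = g r := by
  by_contra hne
  obtain ⟨i, hi1, hi2⟩ := g_least hr b hb.1 hne
  obtain ⟨j, hj1, hj2⟩ := hb.2 (g r) (g_sol hr) (Ne.symm hne)
  rcases lt_trichotomy i j with h | h | h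
  · have := hj1 i h
    omega
  · subst h
    omega
  · have := hi1 j h
    omega

/-- Positions of the value `m ≥ 3`. -/
theorem mem_iff (hr : 5 ≤ r) {m i : ℕ} (hm : 3 ≤ m) :
    (1 ≤ i ∧ g r i = m) ↔ S r (g r) m ≤ i ∧ i < S r (g r) (m + 1) := by
  constructor
  · rintro ⟨h1, h2⟩
    have h3 : 3 ≤ i := by
      have := g_le r i
      omega
    have := pos_bounds hr i h3
    rwa [h2] at this
  · rintro ⟨h1, h2⟩
    have h3 : 3 ≤ i := by
      have := (s_strict hr).monotone hm
      rw [s3 hr] at this
      omega
    obtain ⟨h4, h5⟩ := pos_bounds hr i h3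
    have h6 := (s_strict hr).lt_iff_lt.1 (lt_of_le_of_lt h4 h2)
    have h7 := (s_strict hr).lt_iff_lt.1 (lt_of_le_of_lt h1 h5)
    exact ⟨by omega, by omega⟩

theorem set_eq (hr : 5 ≤ r) {m : ℕ} (hm : 3 ≤ m) : {i | 1 ≤ i ∧ g r i = m} =
    (Finset.Ico (S r (g r) m) (S r (g r) (m + 1)) : Set ℕ) := by
  ext i
  simp only [Set.mem_ofPred_eq, Finset.coe_Ico, Set.mem_Ico]
  exact mem_iff hr hm

theorem N_eq (hr : 5 ≤ r) {m : ℕ} (hm : 3 ≤ m) :
    N (g r) m = S r (g r) (m + 1) - S r (g r) m := by
  rw [N, set_eq hr hm, Set.ncard_coe_finset, Nat.card_Ico]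

theorem g5 (hr : 5 ≤ r) : 3 ≤ g r 5 := by
  by_contra hcon
  have h1 : g r 5 = 2 := by
    have := g_ge2 (r := r) (k := 5) (by omega)
    omega
  obtain ⟨_, h3⟩ := pos_bounds hr 5 (by omega)
  rw [h1, s3 hr] at h3
  omega

theorem set_two (hr : 5 ≤ r) : {i | 1 ≤ i ∧ g r i = 2} = (Finset.Icc 2 4 : Set ℕ) := by
  ext i
  simp only [Set.mem_ofPred_eq, Finset.coe_Icc, Set.mem_Icc]
  constructor
  · rintro ⟨h1, h2⟩
    constructor
    · by_contra hcon
      have : i = 1 := by omega
      rw [this, g1] at h2
      omega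
    · by_contra hcon
      have h3 := g_mono r (by omega : 5 ≤ i)
      have := g5 hr
      omega
  · rintro ⟨h1, h2⟩
    refine ⟨by omega, ?_⟩
    have h4 : g r 4 = 2 := by
      rw [g_rec (by omega), g3, s3 hr, if_neg (by omega)]
    have h3 := g_mono r h2
    have h5 := g_ge2 (r := r) h1
    omega

theorem set_one (_hr : 5 ≤ r) : {i | 1 ≤ i ∧ g r i = 1} = ({1} : Set ℕ) := by
  ext i
  simp only [Set.mem_ofPred_eq, Set.mem_singleton_iff]
  constructor
  · rintro ⟨h1, h2⟩
    by_contra hcon
    have := g_ge2 (r := r) (k := i) (by omega)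
    omega
  · rintro rfl
    exact ⟨le_rfl, g1 r⟩

/-- The increments of `s` are at most `g r`. -/
theorem incr_le (hr : 5 ≤ r) : ∀ n, 3 ≤ n →
    S r (g r) (n + 1) ≤ S r (g r) n + g r r := by
  intro n
  induction n using Nat.strong_induction_on with
  | _ n ih =>
    intro hn
    by_contra hcon
    push Not at hcon
    have hγ3 : 3 ≤ g r r := (g5 hr).trans (g_mono r hr)
    set γ := g r r with hγ
    have hγr : γ + 1 ≤ r := g_lt (by omega)
    have hs := S_succ (by omega : 1 ≤ r) (g r) n
    -- `n ≥ r`
    have hnr : r ≤ n := by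
      by_contra h
      have h1 : g r (n + 1) ≤ γ := g_mono r (by omega)
      omega
    obtain ⟨y, hy⟩ : ∃ y, n + 1 = y + r := ⟨n + 1 - r, by omega⟩
    have hy1 : 1 ≤ y := by omega
    rw [hy, Nat.add_sub_cancel] at hs
    set v := g r y with hv
    have hv1 : 1 ≤ v := g_pos hy1
    have hvy : v ≤ y := g_le r y
    have h1 : v + γ + 1 ≤ g r (y + r) := by
      rw [hy] at hcon; omega
    -- first position of `v + 1` is after `y`
    have h2 : y < S r (g r) (v + 1) := by
      rcases Nat.lt_or_ge y 3 with h | h
      · interval_cases y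
        · rw [hv, g1, s2 hr]; omega
        · rw [hv, g2, s3 hr]; omega
      · exact (pos_bounds hr y h).2
    have h3 : S r (g r) (v + γ + 1) ≤ y + r :=
      ((s_strict hr).monotone h1).trans (pos_bounds hr (y + r) (by omega)).1
    -- lower bound for the sum of `γ` consecutive increments
    have h4 : S r (g r) (v + 1) + r ≤ S r (g r) (v + 1 + γ) := by
      rcases Nat.lt_or_ge (v + 1 + γ) r with h5 | h5
      · -- small case
        have conv : ∀ d, 2 + d + γ ≤ r →
            S r (g r) 2 + γ + S r (g r) (2 + d) + S r (g r) (2 + γ) ≤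
              S r (g r) (2 + d + γ) + 2 * S r (g r) 2 + γ := by
          intro d
          induction d with
          | zero => intro _; simp only [Nat.add_zero]; omega
          | succ d ihd =>
            intro hd
            have i1 := ihd (by omega)
            have i2 := S_succ (by omega : 1 ≤ r) (g r) (2 + d)
            have i3 := S_succ (by omega : 1 ≤ r) (g r) (2 + d + γ)
            rw [show 2 + d + 1 - r = 0 by omega, g0] at i2
            rw [show 2 + d + γ + 1 - r = 0 by omega, g0] at i3
            have i4 := g_mono r (by omega : 2 + d + 1 ≤ 2 + d + γ + 1)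
            rw [show 2 + (d + 1) = 2 + d + 1 by omega,
              show 2 + d + 1 + γ = 2 + d + γ + 1 by omega]
            omega
        have c := conv (v - 1) (by omega)
        rw [show 2 + (v - 1) = v + 1 by omega, s2 hr] at c
        have d1 := (pos_bounds hr r (by omega)).2
        rw [← hγ] at d1
        have d2 := S_succ (by omega : 1 ≤ r) (g r) (γ + 1)
        rw [show γ + 1 + 1 - r = 0 by omega, g0, show γ + 1 + 1 = 2 + γ by omega] at d2
        have d3 := g_ge2 (r := r) (k := 2 + γ) (by omega)
        omega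
      · -- generic case: each of the `r` terms grows by at least one
        have : S r (g r) (v + 1) + ∑ _j ∈ Finset.range r, 1 ≤ S r (g r) (v + 1 + γ) := by
          rw [S, S, ← Finset.sum_add_distrib]
          apply Finset.sum_le_sum
          intro j hj
          rw [Finset.mem_range] at hj
          rcases Nat.lt_or_ge j (v + 1) with h6 | h6
          · obtain ⟨z, hz⟩ : ∃ z, v + 1 = z + j := ⟨v + 1 - j, by omega⟩
            have hz1 : 1 ≤ z := by omega
            rw [hz, Nat.add_sub_cancel, show z + j + γ - j = z + γ by omega]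
            by_contra h7
            have h8 : g r (z + γ) = g r z :=
              le_antisymm (by omega) (g_mono r (by omega))
            rcases Nat.lt_or_ge (g r z) 3 with h9 | h9
            · rcases Nat.lt_or_ge z 2 with h10 | h10
              · have hz' : z = 1 := by omega
                rw [hz', g1] at h8
                have := g_ge2 (r := r) (k := 1 + γ) (by omega)
                omega
              · have := g_mono r (by omega : 5 ≤ z + γ)
                have := g5 hr
                omega
            · have e1 := (mem_iff hr h9).1 ⟨hz1, rfl⟩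
              have e2 := (mem_iff hr h9).1 ⟨by omega, h8⟩
              have e3 := g_le r z
              have e4 := ih (g r z) (by omega) h9
              omega
          · rw [show v + 1 - j = 0 by omega, g0]
            exact g_pos (by omega)
        simpa using this
    rw [show v + γ + 1 = v + 1 + γ by omega] at h3
    omega

/-- **Full positive answer to Q1**: for every `r ≥ 5` the almost Golomb sequence of order `r`
exists, is unique, each value occurs finitely often and the maximal multiplicity `M(r)` is
`N_r(r-1)`. -/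
theorem result (r : ℕ) (hr : 5 ≤ r) :
    ∃ a, IsAlmostGolomb r a ∧ (∀ b, IsAlmostGolomb r b → b = a) ∧
      (∀ n, 1 ≤ n → {i | 1 ≤ i ∧ a i = n}.Finite) ∧
      IsGreatest {k | ∃ n, 1 ≤ n ∧ N a n = k} (N a (r - 1)) := by
  have hγ3 : 3 ≤ g r r := (g5 hr).trans (g_mono r hr)
  have htop : N (g r) (r - 1) = g r r := by
    rw [N_eq hr (by omega)]
    have := S_succ (by omega : 1 ≤ r) (g r) (r - 1)
    rw [show r - 1 + 1 - r = 0 by omega, g0] at this
    rw [show r - 1 + 1 = r by omega] at this ⊢
    omega
  refine ⟨g r, g_almost hr, almost_unique hr, ?_, ⟨r - 1, by omega, rfl⟩, ?_⟩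
  · intro n hn
    rcases Nat.lt_or_ge n 3 with h | h
    · have : n = 1 ∨ n = 2 := by omega
      rcases this with rfl | rfl
      · rw [set_one hr]; exact Set.finite_singleton 1
      · rw [set_two hr]; exact Finset.finite_toSet _
    · rw [set_eq hr h]; exact Finset.finite_toSet _
  · rintro k ⟨n, hn, rfl⟩
    rw [htop]
    rcases Nat.lt_or_ge n 3 with h | h
    · have : n = 1 ∨ n = 2 := by omega
      rcases this with rfl | rfl
      · rw [N, set_one hr, Set.ncard_singleton]; omega
      · rw [N, set_two hr, Set.ncard_coe_finset]; simpa using hγ3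
    · rw [N_eq hr h]
      have := incr_le hr n h
      omega

end Main

end Pool.Agent.Results.MP_c02c06_co.MaxMultiplicity
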